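import Mathlib
import Pool.Agent.H45.AFSys

open Set Filter Topology WeakDual
open Pool.Agent.H45.AF

namespace Pool.Agent.Results.MP_3ea43b_an.BoundedCocycle

/-- A UHF algebra `A` together with full matrix algebras `A_n ⊆ A_{n+1}` (unital embeddings) whose
union is dense, given by compatible systems of matrix units: every matrix unit of `A_n` is a sum of
matrix units of `A_{n+1}`. -/
structure UHF (A : Type*) [CStarAlgebra A] where
  k : ℕ → ℕ
  e : ∀ n, Fin (k n) → Fin (k n) → A
  mul_e : ∀ n i j p q, e n i j * e n p q = if j = p then e n i q else 0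
  star_e : ∀ n i j, star (e n i j) = e n j i
  sum_e : ∀ n, ∑ i, e n i i = 1
  embed : ∀ n i j, ∃ S : Finset (Fin (k (n + 1)) × Fin (k (n + 1))),
    e n i j = ∑ s ∈ S, e (n + 1) s.1 s.2
  dense : Dense ((Submodule.span ℂ {a | ∃ n i j, a = e n i j} : Submodule ℂ A) : Set A)

variable {A : Type*} [CStarAlgebra A]

namespace UHF

variable (M : UHF A)

/-- The canonical masa: the closed subalgebra generated by the diagonal matrix units. -/
def diag : Subalgebra ℂ A := (Algebra.adjoin ℂ {a | ∃ n i, a = M.e n i i}).topologicalClosure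

/-- The Gelfand spectrum of the diagonal. -/
abbrev X : Type _ := characterSpace ℂ M.diag

/-- The diagonal matrix unit as an element of the diagonal. -/
def u (n : ℕ) (i : Fin (M.k n)) : M.diag :=
  ⟨M.e n i i, Subalgebra.le_topologicalClosure _ (Algebra.subset_adjoin ⟨n, i, rfl⟩)⟩

/-! ### Matrix units -/

lemma mul_self (n : ℕ) (i : Fin (M.k n)) : M.e n i i * M.e n i i = M.e n i i := by
  rw [M.mul_e, if_pos rfl]

lemma e_ne_zero [Nontrivial A] (n : ℕ) (i j : Fin (M.k n)) : M.e n i j ≠ 0 := by
  intro h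
  have h1 : ∀ p : Fin (M.k n), M.e n p p = 0 := by
    intro p
    have : M.e n p i * M.e n i j * M.e n j p = M.e n p p := by
      rw [M.mul_e, if_pos rfl, M.mul_e, if_pos rfl]
    rw [← this, h, mul_zero, zero_mul]
  have h2 := M.sum_e n
  rw [Finset.sum_eq_zero (fun i _ => h1 i)] at h2
  exact zero_ne_one h2

/-- One step: a row of a matrix unit of level `n` at level `n+1` is a matrix unit or zero. -/
lemma row_succ [Nontrivial A] (n : ℕ) (i j : Fin (M.k n)) (p : Fin (M.k (n + 1))) :
    (∃ q, M.e (n + 1) p p * M.e n i j = M.e (n + 1) p q) ∨ M.e (n + 1) p p * M.e n i j = 0 := by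
  classical
  -- the number of entries in the row `p`
  have hrow : ∀ j : Fin (M.k n), ∃ T : Finset (Fin (M.k (n + 1)) × Fin (M.k (n + 1))),
      M.e (n + 1) p p * M.e n i j = ∑ s ∈ T, M.e (n + 1) p s.2 ∧ (∀ s ∈ T, s.1 = p) ∧
      (T.card : ℂ) • M.e (n + 1) p p = M.e (n + 1) p p * M.e n i i * M.e (n + 1) p p := by
    intro j
    obtain ⟨S, hS⟩ := M.embed n i j
    refine ⟨S.filter fun s => s.1 = p, ?_, fun s hs => (Finset.mem_filter.1 hs).2, ?_⟩
    · rw [hS, Finset.mul_sum, Finset.sum_filter]
      apply Finset.sum_congr rfl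
      intro s _
      rw [M.mul_e]
      by_cases h : s.1 = p
      · simp [h]
      · rw [if_neg (fun hc => h hc.symm), if_neg h]
    · set T := S.filter fun s => s.1 = p with hT
      have hw : M.e (n + 1) p p * M.e n i j = ∑ s ∈ T, M.e (n + 1) p s.2 := by
        rw [hS, Finset.mul_sum, hT, Finset.sum_filter]
        apply Finset.sum_congr rfl
        intro s _
        rw [M.mul_e]
        by_cases h : s.1 = p
        · simp [h]
        · rw [if_neg (fun hc => h hc.symm), if_neg h]
      have hw2 : M.e n j i * M.e (n + 1) p p = ∑ s ∈ T, M.e (n + 1) s.2 p := by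
        have := congrArg star hw
        rw [star_mul, M.star_e, M.star_e, star_sum] at this
        rw [this]
        apply Finset.sum_congr rfl
        intro s _
        rw [M.star_e]
      have h1 : M.e (n + 1) p p * M.e n i i * M.e (n + 1) p p =
          (M.e (n + 1) p p * M.e n i j) * (M.e n j i * M.e (n + 1) p p) := by
        have : M.e n i i = M.e n i j * M.e n j i := by rw [M.mul_e, if_pos rfl]
        rw [this]; simp only [mul_assoc]
      rw [h1, hw, hw2, Finset.sum_mul_sum]
      have h2 : ∀ s ∈ T, ∑ t ∈ T, M.e (n + 1) p s.2 * M.e (n + 1) t.2 p = M.e (n + 1) p p := by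
        intro s hs
        rw [Finset.sum_eq_single s]
        · rw [M.mul_e, if_pos rfl]
        · intro t ht hts
          rw [M.mul_e, if_neg]
          intro hc
          apply hts
          have e1 := (Finset.mem_filter.1 ht).2
          have e2 := (Finset.mem_filter.1 hs).2
          exact Prod.ext (e1.trans e2.symm) hc.symm
        · intro h; exact absurd hs h
      rw [Finset.sum_congr rfl h2, Finset.sum_const, Nat.cast_smul_eq_nsmul]
  have hne := M.e_ne_zero (n + 1) p p
  -- the number of entries is at most one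
  obtain ⟨T0, hT0, hT0p, hc0⟩ := hrow i
  have hcard0 : M.e (n + 1) p p * M.e n i i * M.e (n + 1) p p = M.e (n + 1) p p ∨
      M.e (n + 1) p p * M.e n i i * M.e (n + 1) p p = 0 := by
    rw [hT0, Finset.sum_mul]
    have h1 : ∀ s ∈ T0, M.e (n + 1) p s.2 * M.e (n + 1) p p =
        if s = (p, p) then M.e (n + 1) p p else 0 := by
      intro s hs
      rw [M.mul_e]
      by_cases h : s.2 = p
      · have : s = (p, p) := Prod.ext (hT0p s hs) h
        simp [this]
      · have : s ≠ (p, p) := fun hc => h (by rw [hc])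
        rw [if_neg h, if_neg this]
    rw [Finset.sum_congr rfl h1, Finset.sum_ite_eq']
    by_cases h : (p, p) ∈ T0
    · left; rw [if_pos h]
    · right; rw [if_neg h]
  obtain ⟨T, hT, hTp, hc⟩ := hrow j
  rcases hcard0 with h0 | h0
  · rw [h0] at hc
    have h1 : ((T.card : ℂ) - 1) • M.e (n + 1) p p = 0 := by
      rw [sub_smul, hc, one_smul, sub_self]
    rcases smul_eq_zero.1 h1 with h2 | h2
    · have h3 : (T.card : ℂ) = 1 := sub_eq_zero.1 h2
      have h4 : T.card = 1 := by exact_mod_cast h3
      obtain ⟨s, hs⟩ := Finset.card_eq_one.1 h4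
      left
      refine ⟨s.2, ?_⟩
      rw [hT, hs, Finset.sum_singleton]
    · exact absurd h2 hne
  · rw [h0] at hc
    rcases smul_eq_zero.1 hc with h2 | h2
    · have h4 : T.card = 0 := by exact_mod_cast h2
      right
      rw [hT, Finset.card_eq_zero.1 h4, Finset.sum_empty]
    · exact absurd h2 hne

/-- The row of a diagonal unit. -/
lemma row_diag_of [Nontrivial A] {n m : ℕ} {i : Fin (M.k n)} {p : Fin (M.k m)}
    (h : (∃ q, M.e m p p * M.e n i i = M.e m p q) ∨ M.e m p p * M.e n i i = 0) :
    M.e m p p * M.e n i i = M.e m p p ∨ M.e m p p * M.e n i i = 0 := by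
  rcases h with ⟨q, hq⟩ | h
  · left
    have h2 : M.e n i i * M.e m p p = M.e m q p := by
      have := congrArg star hq
      rwa [star_mul, M.star_e, M.star_e, M.star_e] at this
    have h3 : M.e m p q * M.e m q p = M.e m p q * M.e m p p := by
      calc M.e m p q * M.e m q p = (M.e m p p * M.e n i i) * (M.e n i i * M.e m p p) := by
            rw [hq, h2]
        _ = M.e m p p * (M.e n i i * M.e n i i) * M.e m p p := by simp only [mul_assoc]
        _ = M.e m p q * M.e m p p := by rw [M.mul_self, hq]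
    rw [M.mul_e, if_pos rfl, M.mul_e] at h3
    by_cases hqp : q = p
    · rw [hq, hqp]
    · rw [if_neg hqp] at h3
      exact absurd h3 (M.e_ne_zero m p p)
  · exact Or.inr h

/-- Rows of matrix units of level `n` at a higher level. -/
lemma row [Nontrivial A] {n m : ℕ} (hnm : n ≤ m) (i j : Fin (M.k n)) (p : Fin (M.k m)) :
    (∃ q, M.e m p p * M.e n i j = M.e m p q) ∨ M.e m p p * M.e n i j = 0 := by
  induction m, hnm using Nat.le_induction with
  | base =>
    rw [M.mul_e]
    by_cases h : p = i
    · left; exact ⟨j, by rw [if_pos h, h]⟩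
    · right; rw [if_neg h]
  | succ m hnm ih =>
    -- the position of `p` at level `m`
    have hex : ∃ p', M.e (m + 1) p p * M.e m p' p' = M.e (m + 1) p p := by
      by_contra hcon
      push Not at hcon
      have h1 : ∀ p', M.e (m + 1) p p * M.e m p' p' = 0 := fun p' =>
        (M.row_diag_of (M.row_succ m p' p' p)).resolve_left (hcon p')
      have h2 : M.e (m + 1) p p * ∑ p', M.e m p' p' = 0 := by
        rw [Finset.mul_sum]
        exact Finset.sum_eq_zero fun p' _ => h1 p'
      rw [M.sum_e, mul_one] at h2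
      exact M.e_ne_zero _ _ _ h2
    obtain ⟨p', hp'⟩ := hex
    have h1 : M.e (m + 1) p p * M.e n i j = M.e (m + 1) p p * (M.e m p' p' * M.e n i j) := by
      rw [← mul_assoc, hp']
    rcases ih p' with ⟨q', hq'⟩ | h0
    · rw [h1, hq']
      exact M.row_succ m p' q' p
    · right
      rw [h1, h0, mul_zero]

lemma row_diag [Nontrivial A] {n m : ℕ} (hnm : n ≤ m) (i : Fin (M.k n)) (p : Fin (M.k m)) :
    M.e m p p * M.e n i i = M.e m p p ∨ M.e m p p * M.e n i i = 0 :=
  M.row_diag_of (M.row hnm i i p)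

lemma diag_comm [Nontrivial A] {n m : ℕ} (hnm : n ≤ m) (i : Fin (M.k n)) (p : Fin (M.k m)) :
    M.e n i i * M.e m p p = M.e m p p * M.e n i i := by
  have h : star (M.e m p p * M.e n i i) = M.e n i i * M.e m p p := by
    rw [star_mul, M.star_e, M.star_e]
  rw [← h]
  rcases M.row_diag hnm i p with h1 | h1
  · rw [h1, M.star_e]
  · rw [h1, star_zero]

lemma diag_comm' [Nontrivial A] (n m : ℕ) (i : Fin (M.k n)) (p : Fin (M.k m)) :
    M.e n i i * M.e m p p = M.e m p p * M.e n i i := by
  rcases le_total n m with h | h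
  · exact M.diag_comm h i p
  · exact (M.diag_comm h p i).symm

/-- Diagonal units commute with the diagonal. -/
lemma comm_mem [Nontrivial A] (n : ℕ) (i : Fin (M.k n)) {d : A} (hd : d ∈ M.diag) :
    M.e n i i * d = d * M.e n i i := by
  have h1 : M.diag ≤ Subalgebra.centralizer ℂ {M.e n i i} := by
    apply Subalgebra.topologicalClosure_minimal
    · apply Algebra.adjoin_le
      rintro _ ⟨m, p, rfl⟩
      rw [SetLike.mem_coe, Subalgebra.mem_centralizer_iff]
      intro g hg
      rw [mem_singleton_iff] at hg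
      rw [hg]
      exact M.diag_comm' n m i p
    · exact Set.isClosed_centralizer _
  have h2 := h1 hd
  rw [Subalgebra.mem_centralizer_iff] at h2
  exact h2 _ rfl

/-- The span of the diagonal units is closed under multiplication. -/
lemma span_mul [Nontrivial A] {x y : A}
    (hx : x ∈ Submodule.span ℂ {a | ∃ n i, a = M.e n i i})
    (hy : y ∈ Submodule.span ℂ {a | ∃ n i, a = M.e n i i}) :
    x * y ∈ Submodule.span ℂ {a | ∃ n i, a = M.e n i i} := by
  induction hx using Submodule.span_induction with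
  | mem x hx =>
    obtain ⟨n, i, rfl⟩ := hx
    induction hy using Submodule.span_induction with
    | mem y hy =>
      obtain ⟨m, p, rfl⟩ := hy
      rcases le_total n m with h | h
      · rw [M.diag_comm h i p]
        rcases M.row_diag h i p with h1 | h1
        · rw [h1]; exact Submodule.subset_span ⟨m, p, rfl⟩
        · rw [h1]; exact Submodule.zero_mem _
      · rcases M.row_diag h p i with h1 | h1
        · rw [h1]; exact Submodule.subset_span ⟨n, i, rfl⟩
        · rw [h1]; exact Submodule.zero_mem _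
    | zero => rw [mul_zero]; exact Submodule.zero_mem _
    | add y z _ _ hy hz => rw [mul_add]; exact Submodule.add_mem _ hy hz
    | smul r y _ hy => rw [mul_smul_comm]; exact Submodule.smul_mem _ _ hy
  | zero => rw [zero_mul]; exact Submodule.zero_mem _
  | add x z _ _ hx hz => rw [add_mul]; exact Submodule.add_mem _ hx hz
  | smul r x _ hx => rw [smul_mul_assoc]; exact Submodule.smul_mem _ _ hx

/-- The algebra generated by the diagonal units is their span. -/
lemma adjoin_le_span [Nontrivial A] {d : A}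
    (hd : d ∈ Algebra.adjoin ℂ {a | ∃ n i, a = M.e n i i}) :
    d ∈ Submodule.span ℂ {a | ∃ n i, a = M.e n i i} := by
  induction hd using Algebra.adjoin_induction with
  | mem x hx => exact Submodule.subset_span hx
  | algebraMap r =>
    rw [Algebra.algebraMap_eq_smul_one, ← M.sum_e 0]
    exact Submodule.smul_mem _ _ (Submodule.sum_mem _ fun i _ => Submodule.subset_span ⟨0, i, rfl⟩)
  | add x y _ _ hx hy => exact Submodule.add_mem _ hx hy
  | mul x y _ _ hx hy => exact M.span_mul hx hy

/-- Matrix units normalize the diagonal. -/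
lemma conj_mem [Nontrivial A] (n : ℕ) (i j : Fin (M.k n)) {d : A} (hd : d ∈ M.diag) :
    M.e n i j * d * M.e n j i ∈ M.diag := by
  have hgen : ∀ (m : ℕ) (p : Fin (M.k m)), M.e m p p ∈ M.diag := fun m p => (M.u m p).2
  -- generators of high level
  have h1 : ∀ (m : ℕ), n ≤ m → ∀ p : Fin (M.k m), M.e n i j * M.e m p p * M.e n j i ∈ M.diag := by
    intro m hm p
    have e1 : M.e n i j * M.e m p p * M.e n j i =
        (M.e n i j * M.e m p p) * star (M.e n i j * M.e m p p) := by
      rw [star_mul, M.star_e, M.star_e]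
      calc M.e n i j * M.e m p p * M.e n j i
          = M.e n i j * (M.e m p p * M.e m p p) * M.e n j i := by rw [M.mul_self]
        _ = _ := by simp only [mul_assoc]
    have e2 : M.e n i j * M.e m p p = star (M.e m p p * M.e n j i) := by
      rw [star_mul, M.star_e, M.star_e]
    rcases M.row hm j i p with ⟨q, hq⟩ | h0
    · rw [e1, e2, hq, star_star, M.star_e, M.mul_e, if_pos rfl]
      exact hgen m q
    · rw [e1, e2, h0, star_zero, zero_mul]
      exact Subalgebra.zero_mem _
  -- all generators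
  have h2 : ∀ (m : ℕ) (p : Fin (M.k m)), M.e n i j * M.e m p p * M.e n j i ∈ M.diag := by
    intro m p
    have e1 : M.e m p p = ∑ r, M.e (max n m) r r * M.e m p p := by
      rw [← Finset.sum_mul, M.sum_e, one_mul]
    rw [e1, Finset.mul_sum, Finset.sum_mul]
    apply Subalgebra.sum_mem
    intro r _
    rcases M.row_diag (le_max_right n m) p r with h | h
    · rw [h]; exact h1 _ (le_max_left _ _) r
    · rw [h, mul_zero, zero_mul]; exact Subalgebra.zero_mem _
  -- the span
  have h3 : ∀ x ∈ Submodule.span ℂ {a | ∃ n i, a = M.e n i i},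
      M.e n i j * x * M.e n j i ∈ M.diag := by
    intro x hx
    induction hx using Submodule.span_induction with
    | mem x hx =>
      obtain ⟨m, p, rfl⟩ := hx
      exact h2 m p
    | zero => simp
    | add x y _ _ hx hy =>
      rw [mul_add, add_mul]
      exact Subalgebra.add_mem _ hx hy
    | smul r x _ hx =>
      rw [mul_smul_comm, smul_mul_assoc]
      exact Subalgebra.smul_mem _ hx r
  have hclosed : IsClosed {d : A | M.e n i j * d * M.e n j i ∈ M.diag} := by
    have : IsClosed (M.diag : Set A) := Subalgebra.isClosed_topologicalClosure _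
    exact this.preimage (by fun_prop)
  have hsub : (Algebra.adjoin ℂ {a | ∃ n i, a = M.e n i i} : Set A) ⊆
      {d : A | M.e n i j * d * M.e n j i ∈ M.diag} := fun d hd => h3 d (M.adjoin_le_span hd)
  exact closure_minimal hsub hclosed hd

/-- Conjugation `d ↦ e_ij d e_ji` on the diagonal. -/
def conj [Nontrivial A] (n : ℕ) (i j : Fin (M.k n)) (d : M.diag) : M.diag :=
  ⟨M.e n i j * d * M.e n j i, M.conj_mem n i j d.2⟩

/-- The graph of the partial homeomorphism of `X` given by the matrix unit `e_ij` of level `n`: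
pairs `(x, y)` with `x(e_ii) = 1` and `y(d) = x(e_ij d e_ji)` for all `d` in the diagonal. -/
def graph [Nontrivial A] (n : ℕ) (i j : Fin (M.k n)) : Set (M.X × M.X) :=
  {p | p.1 (M.u n i) = 1 ∧ ∀ d : M.diag, p.2 d = p.1 (M.conj n i j d)}

end UHF

/-- The AF equivalence relation (groupoid) `R`: the union of the graphs of the partial
homeomorphisms given by the matrix units. -/
structure Gpd [Nontrivial A] (M : UHF A) where
  fst : M.X
  snd : M.X
  mem : ∃ n i j, (fst, snd) ∈ M.graph n i j

/-- The étale topology of `R`, generated by the graphs of the matrix units. -/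
instance [Nontrivial A] (M : UHF A) : TopologicalSpace (Gpd M) :=
  TopologicalSpace.generateFrom {U | ∃ n i j, U = {γ : Gpd M | (γ.fst, γ.snd) ∈ M.graph n i j}}

/-- A cocycle: a continuous real function on `R` with `c(x,y) + c(y,z) = c(x,z)`. -/
structure IsCocycle [Nontrivial A] {M : UHF A} (c : Gpd M → ℝ) : Prop where
  continuous : Continuous c
  add : ∀ γ₁ γ₂ γ₃ : Gpd M, γ₁.snd = γ₂.fst → γ₃.fst = γ₁.fst → γ₃.snd = γ₂.snd →
    c γ₁ + c γ₂ = c γ₃

/-- `T` is a TAF subalgebra: the closure of an increasing union of subalgebras `T_n` of the full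
matrix algebras `A_n`, where the intersection of `T_n` with its adjoint is the diagonal of
`A_n`. -/
def IsTAF (M : UHF A) (T : Subalgebra ℂ A) : Prop :=
  ∃ Tn : ℕ → Subalgebra ℂ A,
    (∀ n, (Tn n : Set A) ⊆ Submodule.span ℂ {a | ∃ i j, a = M.e n i j}) ∧
    (∀ n a, (a ∈ Tn n ∧ star a ∈ Tn n) ↔ a ∈ Submodule.span ℂ {a | ∃ i, a = M.e n i i}) ∧
    (∀ n, Tn n ≤ Tn (n + 1)) ∧
    (T : Set A) = closure (⋃ n, (Tn n : Set A))

/-- The spectrum `P(T)`: the union of the graphs of the matrix units belonging to `T`. -/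
def spec [Nontrivial A] (M : UHF A) (T : Subalgebra ℂ A) : Set (Gpd M) :=
  {γ | ∃ n i j, M.e n i j ∈ T ∧ (γ.fst, γ.snd) ∈ M.graph n i j}

/-- `T` admits the cocycle `c`: `P(T) = {(x,y) ∈ R : c(x,y) ≥ 0}`. -/
def Admits [Nontrivial A] {M : UHF A} (T : Subalgebra ℂ A) (c : Gpd M → ℝ) : Prop :=
  IsCocycle c ∧ spec M T = {γ | 0 ≤ c γ}

/-- Boundedness of a cocycle. -/
def Bounded [Nontrivial A] {M : UHF A} (c : Gpd M → ℝ) : Prop := ∃ K : ℝ, ∀ γ, |c γ| ≤ K

/-! ### The spectrum of the diagonal -/

section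

variable [Nontrivial A] (M : UHF A)

lemma u_mul (n : ℕ) (i j : Fin (M.k n)) : M.u n i * M.u n j = if i = j then M.u n i else 0 := by
  apply Subtype.ext
  change M.e n i i * M.e n j j = _
  rw [M.mul_e]
  by_cases h : i = j
  · rw [if_pos h, if_pos h, h]; rfl
  · rw [if_neg h, if_neg h]; rfl

lemma sum_u (n : ℕ) : ∑ i, M.u n i = 1 := by
  apply Subtype.ext
  rw [AddSubmonoidClass.coe_finsetSum]
  exact M.sum_e n

lemma exists_loc (n : ℕ) (x : M.X) : ∃ i, x (M.u n i) = 1 := by
  by_contra hcon
  push Not at hcon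
  have h1 : ∀ i, x (M.u n i) = 0 := by
    intro i
    have h2 : x (M.u n i) * x (M.u n i) = x (M.u n i) := by
      rw [← map_mul, u_mul, if_pos rfl]
    have h3 : x (M.u n i) * (x (M.u n i) - 1) = 0 := by rw [mul_sub, h2, mul_one, sub_self]
    rcases mul_eq_zero.1 h3 with h4 | h4
    · exact h4
    · exact absurd (sub_eq_zero.1 h4) (hcon i)
  have h5 : x (∑ i, M.u n i) = 0 := by
    rw [map_sum]
    exact Finset.sum_eq_zero fun i _ => h1 i
  rw [sum_u, map_one] at h5
  exact one_ne_zero h5

/-- The position of `x` at level `n`. -/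
noncomputable def loc (n : ℕ) (x : M.X) : Fin (M.k n) := (exists_loc M n x).choose

lemma loc_spec (n : ℕ) (x : M.X) : x (M.u n (loc M n x)) = 1 := (exists_loc M n x).choose_spec

lemma loc_unique {n : ℕ} {x : M.X} {i : Fin (M.k n)} (h : x (M.u n i) ≠ 0) : loc M n x = i := by
  by_contra hne
  have h1 : x (M.u n (loc M n x)) * x (M.u n i) = 0 := by
    rw [← map_mul, u_mul, if_neg hne, map_zero]
  rw [loc_spec, one_mul] at h1
  exact h h1

lemma loc_eq_iff {n : ℕ} {x : M.X} {i : Fin (M.k n)} : loc M n x = i ↔ x (M.u n i) = 1 := by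
  constructor
  · rintro rfl; exact loc_spec M n x
  · intro h; exact loc_unique M (by rw [h]; exact one_ne_zero)

/-- Conjugation is multiplicative. -/
lemma conj_mul (n : ℕ) (i j : Fin (M.k n)) (d d' : M.diag) :
    M.conj n i j (d * d') = M.conj n i j d * M.conj n i j d' := by
  apply Subtype.ext
  change M.e n i j * (d * d' : A) * M.e n j i =
    (M.e n i j * d * M.e n j i) * (M.e n i j * d' * M.e n j i)
  have h1 : M.e n i j = M.e n i j * M.e n j j := by rw [M.mul_e, if_pos rfl]
  have h2 : M.e n j j * (d : A) = d * M.e n j j := M.comm_mem n j d.2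
  calc M.e n i j * (d * d' : A) * M.e n j i
      = (M.e n i j * M.e n j j) * (d * d' : A) * M.e n j i := by rw [← h1]
    _ = M.e n i j * (M.e n j j * (d : A)) * d' * M.e n j i := by simp only [mul_assoc]
    _ = M.e n i j * (d * M.e n j j) * d' * M.e n j i := by rw [h2]
    _ = M.e n i j * (d * (M.e n j i * M.e n i j)) * d' * M.e n j i := by
        rw [M.mul_e n j i i j, if_pos rfl]
    _ = _ := by simp only [mul_assoc]

/-- Conjugation as a linear map. -/
def conjL (n : ℕ) (i j : Fin (M.k n)) : M.diag →ₗ[ℂ] M.diag where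
  toFun := M.conj n i j
  map_add' d d' := by
    apply Subtype.ext
    change M.e n i j * (d + d' : A) * M.e n j i =
      M.e n i j * d * M.e n j i + M.e n i j * d' * M.e n j i
    rw [mul_add, add_mul]
  map_smul' r d := by
    apply Subtype.ext
    change M.e n i j * (r • (d : A)) * M.e n j i = r • (M.e n i j * d * M.e n j i)
    rw [mul_smul_comm, smul_mul_assoc]

lemma continuous_conj (n : ℕ) (i j : Fin (M.k n)) : Continuous (M.conj n i j) := by
  apply Continuous.subtype_mk
  fun_prop

/-- The functional `d ↦ x(e_ij d e_ji)`. -/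
noncomputable def trFun (n : ℕ) (i j : Fin (M.k n)) (x : M.X) : M.diag →L[ℂ] ℂ where
  toLinearMap := (CharacterSpace.toCLM x : M.diag →ₗ[ℂ] ℂ).comp (conjL M n i j)
  cont := (map_continuous x).comp (continuous_conj M n i j)

lemma trFun_apply (n : ℕ) (i j : Fin (M.k n)) (x : M.X) (d : M.diag) :
    trFun M n i j x d = x (M.conj n i j d) := rfl

lemma conj_u (n : ℕ) (i j : Fin (M.k n)) : M.conj n i j (M.u n j) = M.u n i := by
  apply Subtype.ext
  change M.e n i j * M.e n j j * M.e n j i = M.e n i i
  rw [M.mul_e, if_pos rfl, M.mul_e, if_pos rfl]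

/-- The point equivalent to `x` at level `n` and located at `j`. -/
noncomputable def tr (n : ℕ) (j : Fin (M.k n)) (x : M.X) : M.X :=
  ⟨(trFun M n (loc M n x) j x : WeakDual ℂ M.diag), by
    refine ⟨?_, ?_⟩
    · intro h
      have h1 : trFun M n (loc M n x) j x (M.u n j) = 0 := by
        have := DFunLike.congr_fun h (M.u n j)
        exact this
      rw [trFun_apply, conj_u, loc_spec] at h1
      exact one_ne_zero h1
    · intro d d'
      change trFun M n (loc M n x) j x (d * d') =
        trFun M n (loc M n x) j x d * trFun M n (loc M n x) j x d'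
      rw [trFun_apply, trFun_apply, trFun_apply, conj_mul, map_mul]⟩

lemma tr_apply (n : ℕ) (j : Fin (M.k n)) (x : M.X) (d : M.diag) :
    tr M n j x d = x (M.conj n (loc M n x) j d) := rfl

lemma loc_tr (n : ℕ) (j : Fin (M.k n)) (x : M.X) : loc M n (tr M n j x) = j := by
  rw [loc_eq_iff, tr_apply, conj_u, loc_spec]

lemma graph_iff (n : ℕ) (i j : Fin (M.k n)) (x y : M.X) :
    (x, y) ∈ M.graph n i j ↔ loc M n x = i ∧ tr M n j x = y := by
  constructor
  · rintro ⟨h1, h2⟩
    have h3 : loc M n x = i := (loc_eq_iff M).2 h1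
    refine ⟨h3, ?_⟩
    apply CharacterSpace.ext
    intro d
    rw [tr_apply, h3]
    exact (h2 d).symm
  · rintro ⟨rfl, rfl⟩
    exact ⟨loc_spec M n x, fun d => rfl⟩

lemma tr_loc (n : ℕ) (x : M.X) : tr M n (loc M n x) x = x := by
  apply CharacterSpace.ext
  intro d
  rw [tr_apply]
  have h1 : M.conj n (loc M n x) (loc M n x) d = M.u n (loc M n x) * d * M.u n (loc M n x) := rfl
  rw [h1, map_mul, map_mul, loc_spec, one_mul, mul_one]

lemma tr_tr (n : ℕ) (i j : Fin (M.k n)) (x : M.X) : tr M n j (tr M n i x) = tr M n j x := by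
  apply CharacterSpace.ext
  intro d
  rw [tr_apply, tr_apply, tr_apply, loc_tr]
  congr 1
  apply Subtype.ext
  change M.e n (loc M n x) i * (M.e n i j * d * M.e n j i) * M.e n i (loc M n x) =
    M.e n (loc M n x) j * d * M.e n j (loc M n x)
  have h1 : M.e n (loc M n x) j = M.e n (loc M n x) i * M.e n i j := by rw [M.mul_e, if_pos rfl]
  have h2 : M.e n j (loc M n x) = M.e n j i * M.e n i (loc M n x) := by rw [M.mul_e, if_pos rfl]
  rw [h1, h2]
  simp only [mul_assoc]

/-- The relation between the positions at levels `n ≤ m`. -/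
lemma loc_row {n m : ℕ} (hnm : n ≤ m) (x : M.X) :
    M.e m (loc M m x) (loc M m x) * M.e n (loc M n x) (loc M n x) =
      M.e m (loc M m x) (loc M m x) := by
  rcases M.row_diag hnm (loc M n x) (loc M m x) with h | h
  · exact h
  · exfalso
    have h1 : M.u m (loc M m x) * M.u n (loc M n x) = 0 := Subtype.ext h
    have h2 : x (M.u m (loc M m x)) * x (M.u n (loc M n x)) = 0 := by
      rw [← map_mul, h1, map_zero]
    rw [loc_spec, loc_spec, one_mul] at h2
    exact one_ne_zero h2

lemma loc_refine {n m : ℕ} (hnm : n ≤ m) {x x' : M.X} (h : loc M m x' = loc M m x) :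
    loc M n x' = loc M n x := by
  rw [loc_eq_iff]
  have h1 : M.u m (loc M m x) * M.u n (loc M n x) = M.u m (loc M m x) :=
    Subtype.ext (loc_row M hnm x)
  have h2 := congrArg x' h1
  rw [map_mul, ← h, loc_spec, one_mul] at h2
  exact h2

lemma tr_succ (n : ℕ) (j : Fin (M.k n)) (x : M.X) :
    ∃ q, ∀ x', loc M (n + 1) x' = loc M (n + 1) x → tr M n j x' = tr M (n + 1) q x' := by
  set p := loc M (n + 1) x with hp
  set i := loc M n x with hi
  have h1 : M.e (n + 1) p p * M.e n i i = M.e (n + 1) p p := loc_row M (Nat.le_succ n) x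
  have h2 : ∃ q, M.e (n + 1) p p * M.e n i j = M.e (n + 1) p q := by
    rcases M.row (Nat.le_succ n) i j p with h | h
    · exact h
    · exfalso
      have h3 : M.e n i i = M.e n i j * M.e n j i := by rw [M.mul_e, if_pos rfl]
      rw [h3, ← mul_assoc, h, zero_mul] at h1
      exact M.e_ne_zero _ _ _ h1.symm
  obtain ⟨q, hq⟩ := h2
  have hq' : M.e n j i * M.e (n + 1) p p = M.e (n + 1) q p := by
    have := congrArg star hq
    rwa [star_mul, M.star_e, M.star_e, M.star_e] at this
  refine ⟨q, fun x' hx' => ?_⟩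
  have hx'n : loc M n x' = i := loc_refine M (Nat.le_succ n) hx'
  apply CharacterSpace.ext
  intro d
  rw [tr_apply, tr_apply, hx', hx'n]
  have h3 : M.conj (n + 1) p q d = M.u (n + 1) p * M.conj n i j d * M.u (n + 1) p := by
    apply Subtype.ext
    change M.e (n + 1) p q * d * M.e (n + 1) q p =
      M.e (n + 1) p p * (M.e n i j * d * M.e n j i) * M.e (n + 1) p p
    rw [← hq, ← hq']
    simp only [mul_assoc]
  have h4 : x' (M.u (n + 1) p) = 1 := (loc_eq_iff M).1 hx'
  rw [h3, map_mul, map_mul, h4, one_mul, mul_one]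

lemma continuous_eval (d : M.diag) : Continuous fun x : M.X => x d :=
  (WeakDual.eval_continuous d).comp continuous_subtype_val

lemma isOpen_loc (n : ℕ) (i : Fin (M.k n)) : IsOpen {x : M.X | loc M n x = i} := by
  have h : {x : M.X | loc M n x = i} = {x : M.X | x (M.u n i) ≠ 0} := by
    ext x
    constructor
    · intro hx
      have : x (M.u n i) = 1 := (loc_eq_iff M).1 hx
      change x (M.u n i) ≠ 0
      rw [this]; exact one_ne_zero
    · intro hx
      exact loc_unique M hx
  rw [h]
  exact isOpen_ne_fun (continuous_eval M _) continuous_const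

lemma isClosed_loc (n : ℕ) (i : Fin (M.k n)) : IsClosed {x : M.X | loc M n x = i} := by
  have h : {x : M.X | loc M n x = i} = {x : M.X | x (M.u n i) = 1} := by
    ext x; exact loc_eq_iff M
  rw [h]
  exact isClosed_eq (continuous_eval M _) continuous_const

instance : CompleteSpace M.diag :=
  (Subalgebra.isClosed_topologicalClosure _).completeSpace_coe

lemma eq_of_loc_eq {x x' : M.X} (h : ∀ n, loc M n x' = loc M n x) : x' = x := by
  have hgen : ∀ n i, x' (M.u n i) = x (M.u n i) := by
    intro n i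
    by_cases hi : loc M n x = i
    · rw [(loc_eq_iff M).1 hi, (loc_eq_iff M).1 ((h n).trans hi)]
    · have h1 : x (M.u n i) = 0 := by
        by_contra hc; exact hi (loc_unique M hc)
      have h2 : x' (M.u n i) = 0 := by
        by_contra hc; exact hi ((h n).symm.trans (loc_unique M hc))
      rw [h1, h2]
  -- the equalizer
  let E : Subalgebra ℂ M.diag := AlgHom.equalizer (CharacterSpace.toAlgHom x')
    (CharacterSpace.toAlgHom x)
  have hE : Algebra.adjoin ℂ {a | ∃ n i, a = M.e n i i} ≤ E.map M.diag.val := by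
    apply Algebra.adjoin_le
    rintro _ ⟨n, i, rfl⟩
    exact ⟨M.u n i, hgen n i, rfl⟩
  have hdense : Dense {d : M.diag | (d : A) ∈ Algebra.adjoin ℂ {a | ∃ n i, a = M.e n i i}} := by
    intro d
    rw [closure_subtype]
    have hd : (d : A) ∈ closure (Algebra.adjoin ℂ {a | ∃ n i, a = M.e n i i} : Set A) := d.2
    refine closure_mono ?_ hd
    intro a ha
    exact ⟨⟨a, Subalgebra.le_topologicalClosure _ ha⟩, ha, rfl⟩
  have hfun : (x' : M.diag → ℂ) = x := by
    apply Continuous.ext_on hdense (map_continuous x') (map_continuous x)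
    intro d hd
    obtain ⟨d', hd', he⟩ := hE hd
    have : d' = d := Subtype.ext he
    rw [← this]
    exact hd'
  exact DFunLike.coe_injective hfun

lemma basis (x : M.X) (U : Set M.X) (hU : U ∈ 𝓝 x) :
    ∃ n, ∀ x', loc M n x' = loc M n x → x' ∈ U := by
  have hdir : Directed (· ⊇ ·) (fun n => {x' : M.X | loc M n x' = loc M n x}) := by
    intro n m
    exact ⟨max n m, fun x' hx' => loc_refine M (le_max_left _ _) hx',
      fun x' hx' => loc_refine M (le_max_right _ _) hx'⟩
  have hnhds : ∀ y ∈ ⋂ n, {x' : M.X | loc M n x' = loc M n x}, U ∈ 𝓝 y := by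
    intro y hy
    have : y = x := by
      apply eq_of_loc_eq M
      intro n
      exact mem_iInter.1 hy n
    rw [this]; exact hU
  obtain ⟨n, hn⟩ := exists_subset_nhds_of_isCompact' hdir
    (fun n => (isClosed_loc M n _).isCompact) (fun n => isClosed_loc M n _) hnhds
  exact ⟨n, fun x' hx' => hn hx'⟩

/-- The combinatorial data. -/
noncomputable def sys : Sys M.X where
  k := M.k
  loc := loc M
  tr := tr M
  loc_tr := loc_tr M
  tr_loc := tr_loc M
  tr_tr := tr_tr M
  succ := tr_succ M
  isOpen_loc := isOpen_loc M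
  basis := basis M

lemma rel_iff (n : ℕ) (x y : M.X) :
    (sys M).Rel n x y ↔ (x, y) ∈ M.graph n (loc M n x) (loc M n y) := by
  rw [graph_iff]
  exact ⟨fun h => ⟨rfl, h⟩, fun h => h.2⟩

lemma rel_of_graph {n : ℕ} {i j : Fin (M.k n)} {x y : M.X} (h : (x, y) ∈ M.graph n i j) :
    (sys M).Rel n x y := by
  rw [graph_iff] at h
  rw [← h.2]
  exact (sys M).rel_tr n j x

/-- The path `x ↦ (x, tr n j x)` in the groupoid. -/
noncomputable def path (n : ℕ) (j : Fin (M.k n)) (x : M.X) : Gpd M :=
  ⟨x, tr M n j x, n, loc M n x, j, (graph_iff M _ _ _ _ _).2 ⟨rfl, rfl⟩⟩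

lemma tr_le {n m : ℕ} (hnm : n ≤ m) (j : Fin (M.k n)) (x : M.X) :
    ∀ x', loc M m x' = loc M m x →
      tr M n j x' = tr M m (loc M m (tr M n j x)) x' := by
  have key : ∃ q, ∀ x', loc M m x' = loc M m x → tr M n j x' = tr M m q x' := by
    induction m, hnm using Nat.le_induction with
    | base => exact ⟨j, fun _ _ => rfl⟩
    | succ m hnm ih =>
      obtain ⟨q, hq⟩ := ih
      obtain ⟨q', hq'⟩ := tr_succ M m q x
      exact ⟨q', fun x' hx' => (hq x' (loc_refine M (Nat.le_succ m) hx')).trans (hq' x' hx')⟩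
  obtain ⟨q, hq⟩ := key
  have h1 := hq x rfl
  have h2 : loc M m (tr M n j x) = q := by rw [h1, loc_tr]
  rw [h2]
  exact hq

lemma continuous_path (n : ℕ) (j : Fin (M.k n)) : Continuous (path M n j) := by
  apply continuous_generateFrom_iff.2
  rintro _ ⟨N, p, q, rfl⟩
  rw [isOpen_iff_mem_nhds]
  intro x hx
  have hx' : loc M N x = p ∧ tr M N q x = tr M n j x := (graph_iff M _ _ _ _ _).1 hx
  have hmem : {x' : M.X | loc M (max n N) x' = loc M (max n N) x} ∈ 𝓝 x :=
    (isOpen_loc M _ _).mem_nhds rfl
  filter_upwards [hmem] with x' hx2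
  have hx2' : loc M (max n N) x' = loc M (max n N) x := hx2
  change (x', tr M n j x') ∈ M.graph N p q
  rw [graph_iff]
  refine ⟨(loc_refine M (le_max_right _ _) hx2').trans hx'.1, ?_⟩
  rw [tr_le M (le_max_right n N) q x x' hx2', tr_le M (le_max_left n N) j x x' hx2', hx'.2]

/-- The cocycle as a function on pairs. -/
noncomputable def lift (c : Gpd M → ℝ) (x y : M.X) : ℝ := by
  classical
  exact if h : ∃ n i j, (x, y) ∈ M.graph n i j then c ⟨x, y, h⟩ else 0

lemma lift_eq (c : Gpd M → ℝ) (γ : Gpd M) : lift M c γ.fst γ.snd = c γ := by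
  unfold lift
  rw [dif_pos γ.mem]

lemma cocycle_lift {c : Gpd M → ℝ} (hc : IsCocycle c) : (sys M).Cocycle (lift M c) where
  add n x y z hxy hyz := by
    have h1 : ∃ n i j, (x, y) ∈ M.graph n i j := ⟨n, _, _, (rel_iff M n x y).1 hxy⟩
    have h2 : ∃ n i j, (y, z) ∈ M.graph n i j := ⟨n, _, _, (rel_iff M n y z).1 hyz⟩
    have h3 : ∃ n i j, (x, z) ∈ M.graph n i j := ⟨n, _, _, (rel_iff M n x z).1 (hxy.trans hyz)⟩
    have e1 := lift_eq M c ⟨x, y, h1⟩
    have e2 := lift_eq M c ⟨y, z, h2⟩
    have e3 := lift_eq M c ⟨x, z, h3⟩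
    simp only at e1 e2 e3
    rw [e1, e2, e3]
    exact hc.add _ _ _ rfl rfl rfl
  cont n j := by
    have h : (fun x => lift M c x ((sys M).tr n j x)) = c ∘ path M n j := by
      funext x
      exact lift_eq M c (path M n j x)
    rw [h]
    exact hc.continuous.comp (continuous_path M n j)

end

/-- **Main theorem.** Let `T` be a TAF subalgebra of a UHF algebra. If `T` admits a bounded
cocycle, then every cocycle admitted by `T` is bounded. In other words, an analytic TAF subalgebra
of a UHF algebra that admits an unbounded cocycle admits no bounded cocycle. -/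
theorem result {A : Type*} [CStarAlgebra A] [Nontrivial A] (M : UHF A) (T : Subalgebra ℂ A)
    (_hT : IsTAF M T) (c c' : Gpd M → ℝ) (hc : Admits T c) (hc' : Admits T c')
    (hb : Bounded c') : Bounded c := by
  have h1 := cocycle_lift M hc.1
  have h2 := cocycle_lift M hc'.1
  have h3 : (sys M).Bdd (lift M c') := by
    obtain ⟨K, hK⟩ := hb
    refine ⟨K, fun n x y hxy => ?_⟩
    have h : ∃ n i j, (x, y) ∈ M.graph n i j := ⟨n, _, _, (rel_iff M n x y).1 hxy⟩
    rw [lift_eq M c' ⟨x, y, h⟩]
    exact hK _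
  obtain ⟨K, hK⟩ := Sys.bounded_of_same_sign h1 h2 h3 (by
    intro n x y hxy
    have h : ∃ n i j, (x, y) ∈ M.graph n i j := ⟨n, _, _, (rel_iff M n x y).1 hxy⟩
    rw [lift_eq M c ⟨x, y, h⟩, lift_eq M c' ⟨x, y, h⟩]
    have e : ({γ | 0 ≤ c γ} : Set (Gpd M)) = {γ | 0 ≤ c' γ} := hc.2.symm.trans hc'.2
    have := Set.ext_iff.1 e ⟨x, y, h⟩
    exact this)
  refine ⟨K, fun γ => ?_⟩
  obtain ⟨n, i, j, hγ⟩ := γ.mem
  have := hK n γ.fst γ.snd (rel_of_graph M hγ)
  rwa [lift_eq] at this

end Pool.Agent.Results.MP_3ea43b_an.BoundedCocycle
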